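import Pool.Agent.Y693.TP.Asm

/-!
# The Tauberian Tate conjecture over random number fields

`F` is a number field of degree `d` and `f` a monic polynomial of degree `n` over `𝓞_F`.  For an integer
`t` let `L = F(θ)` be the extension of degree `n` of `F` generated by a root `θ` of `f + t` (for a given
`f` it exists for all but `O(X^{1/2} log X)` of the integers `|t| ≤ X`, by Hilbert's irreducibility
theorem).  We study the question for the varieties `V × W` over the varying field `L`, where `V` is the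
product of the `r` elliptic curves `y² = x³ + a_i x + b_i + θ` over `L`, and `W` is any variety over `F`.

By the Künneth formula `H²(V)` is the sum of the `r` lines `H²(E_i)` and of the spaces
`H¹(E_i) ⊗ H¹(E_j)`, `i < j`, and `H²(V × W)` is the sum of `H²(V) ⊗ H⁰(W)`, `H¹(V) ⊗ H¹(W)` and
`H⁰(V) ⊗ H²(W)`.  The curves `E_i` and `E_j` are isomorphic if `a_i³ = a_j³` and `b_i = b_j`; for an
indeterminate `θ` they are not isogenous otherwise (the places of bad reduction differ), so that the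
rank `ρ` of `NS(V)` over `F(θ)` is the sum of `r` and of the number of these pairs `i < j`.

The theorem says that for almost all `t` the sum of `b_w(V × W) log q_w / q_w` over the good primes `w`
of `L` with `q_w ≤ T` is the sum of `ρ log q_v` and of `b_v(W) log q_v / q_v` over the primes `v` of the
fixed field `F` with `q_v ≤ T`, up to `T^{1/2+δ}`, for all `T` between a power of `log X` and a power of
`X`.  Apart from `X^{1-c}` exceptions `t`, it holds for all extensions `L = F(θ)` and for any `X^c`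
varieties, uniformly in all number fields `F` of degree `d` and all `f`.  After division by `T` the sum
over `F` tends to `ρ` if `W` is a point, and in general to the sum of `ρ` and the limit of the
question for `W` over `F`.
-/

set_option autoImplicit false

namespace Pool.Agent.Results.MP_4589ac_nt.RandomNumberFields

open NumberField IsDedekindDomain

/-- `a_v(E) = q_v - #{(x, y) : y² = x³ + a x + b}`, where `x`, `y` are in the residue field of `v`.  It
is the trace of the Frobenius at `v` on `H¹` of `E : y² = x³ + a x + b`, if the reduction is good. -/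
noncomputable def trace {K : Type} [Field K] [NumberField K] (a b : 𝓞 K)
    (v : HeightOneSpectrum (𝓞 K)) : ℂ :=
  (Ideal.absNorm v.asIdeal : ℂ) - Nat.card {P : (𝓞 K ⧸ v.asIdeal) × (𝓞 K ⧸ v.asIdeal) //
    P.2 ^ 2 = P.1 ^ 3 + Ideal.Quotient.mk v.asIdeal a * P.1 + Ideal.Quotient.mk v.asIdeal b}

/-- For all `i` the prime `v` does not divide `6 (4 a_i³ + 27 b_i²)`; then the product `V` of the
curves `y² = x³ + a_i x + b_i` has good reduction at `v`. -/
def IsGood {K : Type} [Field K] [NumberField K] {r : ℕ} (a b : Fin r → 𝓞 K)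
    (v : HeightOneSpectrum (𝓞 K)) : Prop :=
  ∀ i, 6 * (4 * a i ^ 3 + 27 * b i ^ 2) ∉ v.asIdeal

/-- The trace of the Frobenius at a good prime `v` on `H¹(V)`, where `V` is the product of the curves
`E_i : y² = x³ + a_i x + b_i`: the sum of the `a_v(E_i)`. -/
noncomputable def trace1 {K : Type} [Field K] [NumberField K] {r : ℕ} (a b : Fin r → 𝓞 K)
    (v : HeightOneSpectrum (𝓞 K)) : ℂ :=
  ∑ i, trace (a i) (b i) v

/-- The trace `b_v(V)` of the Frobenius at a good prime `v` on `H²(V)`, where `V` is the product of the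
curves `E_i : y² = x³ + a_i x + b_i`: the sum of `r q_v` and of `a_v(E_i) a_v(E_j)` for `i < j`. -/
noncomputable def trace2 {K : Type} [Field K] [NumberField K] {r : ℕ} (a b : Fin r → 𝓞 K)
    (v : HeightOneSpectrum (𝓞 K)) : ℂ :=
  r * (Ideal.absNorm v.asIdeal : ℂ) +
    ∑ i, ∑ j ∈ Finset.Ioi i, trace (a i) (b i) v * trace (a j) (b j) v

/-- `b_v(V × W) / q_v`.  The variety `W` is given by the numbers `γ i v j`, the eigenvalues of the
Frobenius at `v` on `H^i(W)`, divided by `q_v^{i/2}`, for `i = 0, 1, 2` (all zero if the reduction of `W`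
is bad at `v`, so that these `v` do not contribute to the sums below). -/
noncomputable def coefficient {K : Type} [Field K] [NumberField K] {r N : ℕ} (a b : Fin r → 𝓞 K)
    (γ : Fin 3 → HeightOneSpectrum (𝓞 K) → Fin N → ℂ) (v : HeightOneSpectrum (𝓞 K)) : ℂ :=
  trace2 a b v / (Ideal.absNorm v.asIdeal : ℂ) * ∑ j, γ 0 v j +
    trace1 a b v / (√(Ideal.absNorm v.asIdeal : ℝ) : ℂ) * ∑ j, γ 1 v j + ∑ j, γ 2 v j

/-- The sum of `(b_v(V × W) / q_v) log q_v` over all primes `v` with `q_v ≤ T` at which the reduction of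
`V` is good. -/
noncomputable def tauberSum {K : Type} [Field K] [NumberField K] {r N : ℕ} (a b : Fin r → 𝓞 K)
    (γ : Fin 3 → HeightOneSpectrum (𝓞 K) → Fin N → ℂ) (T : ℕ) : ℂ :=
  ∑ᶠ v ∈ {v : HeightOneSpectrum (𝓞 K) | IsGood a b v ∧ Ideal.absNorm v.asIdeal ≤ T},
    coefficient a b γ v * (Real.log (Ideal.absNorm v.asIdeal : ℝ) : ℂ)

/-- The number `ρ = r + #{(i, j) : i < j, a_i³ = a_j³, b_i = b_j}`: the rank of the Néron-Severi group
of the product of the curves `y² = x³ + a_i x + b_i + θ` over `F(θ)`, `θ` an indeterminate, if all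
`a_i ≠ 0`. -/
noncomputable def picardNumber {F : Type} [Field F] [NumberField F] {r : ℕ} (a b : Fin r → 𝓞 F) : ℕ :=
  r + {x : Fin r × Fin r | x.1 < x.2 ∧ a x.1 ^ 3 = a x.2 ^ 3 ∧ b x.1 = b x.2}.ncard

/-- The sum of `(ρ + b_v(W) / q_v) log q_v` over the primes `v` of `F` with `q_v ≤ T`, where `ρ` is
multiplied by the trace of the Frobenius on `H⁰(W)`, which is `1` for connected `W`. -/
noncomputable def expectedSum {F : Type} [Field F] [NumberField F] {N : ℕ} (ρ : ℕ)
    (γ : Fin 3 → Ideal (𝓞 F) → Fin N → ℂ) (T : ℕ) : ℂ :=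
  ∑ᶠ v ∈ {v : HeightOneSpectrum (𝓞 F) | Ideal.absNorm v.asIdeal ≤ T},
    ((ρ : ℂ) * ∑ j, γ 0 v.asIdeal j + ∑ j, γ 2 v.asIdeal j) *
      (Real.log (Ideal.absNorm v.asIdeal : ℝ) : ℂ)

/-- The eigenvalues of the Frobenius at the primes `w` of `L` for the base change of `W` to `L`: at `w`
above `v` they are the powers `γ ^ f(w|v)` of those at `v`, where `f(w|v)` is the residue degree. -/
noncomputable def baseChange {F : Type} [Field F] [NumberField F] {N : ℕ} (L : Type) [Field L]
    [NumberField L] [Algebra F L] (γ : Fin 3 → Ideal (𝓞 F) → Fin N → ℂ) (i : Fin 3)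
    (w : HeightOneSpectrum (𝓞 L)) (j : Fin N) : ℂ :=
  γ i (w.asIdeal.comap (algebraMap (𝓞 F) (𝓞 L))) j ^
    Ideal.inertiaDeg' (w.asIdeal.comap (algebraMap (𝓞 F) (𝓞 L))) w.asIdeal

/-- `L = F(θ)` is an extension of `F` of degree `deg f`, and `θ` is a root of `f + t`. -/
def Generates {F : Type} [Field F] [NumberField F] {L : Type} [Field L] [NumberField L] [Algebra F L]
    (f : Polynomial (𝓞 F)) (t : ℤ) (θ : 𝓞 L) : Prop :=
  Polynomial.aeval θ (f + Polynomial.C (t : 𝓞 F)) = 0 ∧ Module.finrank F L = f.natDegree ∧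
    Algebra.adjoin F {(θ : L)} = ⊤

/-- All conjugates of `x` have absolute value at most `R`. -/
def HeightLE {F : Type} [Field F] [NumberField F] (R : ℝ) (x : 𝓞 F) : Prop :=
  ∀ σ : F →+* ℂ, ‖σ (x : F)‖ ≤ R

/-- **The Tauberian Tate conjecture over random number fields.**  Let `d`, `n`, `r`, `N` be integers,
`n ≥ 1`, `B` real and `δ > 0`.  There are `c > 0` and `X₀`, such that for all `X ≥ X₀`, all number
fields `F` of degree `d`, all monic polynomials `f` of degree `n` over `𝓞_F`, and any `m ≤ X^c` families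
of `r` curves `y² = x³ + a_{k,i} x + b_{k,i} + θ`, `a_{k,i} ≠ 0`, and varieties `W_k` over `F`, the
following holds for all integers `t` with `|t| ≤ X`, with at most `X^{1-c}` exceptions.  Let `L = F(θ)`
be any extension of `F` of degree `n` with `f(θ) = - t`.  For all `k` let `V_k` be the product over `L`
of the `r` curves and `ρ_k` the rank of `NS(V_k)` for an indeterminate `θ`.  Then the sum of
`b_w(V_k × W_k) log q_w / q_w` over the primes `w` of `L` with `q_w ≤ T` at which the reduction is good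
differs by at most `T^{1/2+δ}` from the sum of `(ρ_k + b_v(W_k) / q_v) log q_v` over the primes `v` of `F`
with `q_v ≤ T`, for all `(log X)^{1/c} ≤ T ≤ X^c`.

Here the conjugates of all `a_{k,i}`, `b_{k,i}` and of the coefficients of `f` are at most
`exp((log X)^B)`, and only `|γ| ≤ 1` is used of the eigenvalues for the varieties `W_k`. -/
theorem result (d n r N : ℕ) (_ : 0 < n) (B δ : ℝ) (_ : 0 < δ) :
    ∃ c : ℝ, 0 < c ∧ ∃ X₀ : ℕ, ∀ X : ℕ, X₀ ≤ X →
      ∀ (F : Type) [Field F] [NumberField F], Module.finrank ℚ F = d →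
      ∀ f : Polynomial (𝓞 F), f.Monic → f.natDegree = n →
      (∀ i, HeightLE (Real.exp ((Real.log X) ^ B)) (f.coeff i)) →
      ∀ m : ℕ, (m : ℝ) ≤ (X : ℝ) ^ c → ∀ (a b : Fin m → Fin r → 𝓞 F)
        (γ : Fin m → Fin 3 → Ideal (𝓞 F) → Fin N → ℂ),
        (∀ k i, a k i ≠ 0 ∧ HeightLE (Real.exp ((Real.log X) ^ B)) (a k i) ∧
          HeightLE (Real.exp ((Real.log X) ^ B)) (b k i)) →
        (∀ k i v j, ‖γ k i v j‖ ≤ 1) →
        ({t : ℤ | |t| ≤ X ∧ ¬ ∀ (L : Type) [Field L] [NumberField L] [Algebra F L] (θ : 𝓞 L),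
          Generates f t θ → ∀ (k : Fin m) (T : ℕ), (Real.log X) ^ (1 / c) ≤ T → (T : ℝ) ≤ (X : ℝ) ^ c →
            ‖tauberSum (fun i => algebraMap (𝓞 F) (𝓞 L) (a k i))
                (fun i => algebraMap (𝓞 F) (𝓞 L) (b k i) + θ) (baseChange L (γ k)) T -
              expectedSum (picardNumber (a k) (b k)) (γ k) T‖ ≤ (T : ℝ) ^ (1 / 2 + δ)}.ncard : ℝ) ≤
          (X : ℝ) ^ (1 - c) := by
  rename_i hn hδ
  classical
  obtain ⟨c, hc0, X₀, h⟩ := Pool.Agent.Y693.TP.thmT d n r N hn B δ hδ
  refine ⟨c, hc0, X₀, fun X hX F _ _ hF f hf hfn hcoef m hm a b γ hab hγ => ?_⟩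
  have h1 := h X hX F hF f hf hfn hcoef m hm a b (fun k => γ k 0) (fun k => γ k 1) (fun k => γ k 2)
    (fun k i => (hab k i).1) (fun k i σ => ⟨(hab k i).2.1 σ, (hab k i).2.2 σ⟩)
    (fun k v j => hγ k 0 v j) (fun k v j => hγ k 1 v j) (fun k v j => hγ k 2 v j)
  refine le_trans ?_ h1
  -- the coefficients
  have hcoeff : ∀ {K : Type} [Field K] [NumberField K] (α β : Fin r → 𝓞 K)
      (g : Fin 3 → HeightOneSpectrum (𝓞 K) → Fin N → ℂ) (w : HeightOneSpectrum (𝓞 K)), IsGood α β w →
      coefficient α β g w = Pool.Agent.Y693.TP.cg α β (g 0) (g 1) (g 2) w := by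
    intro K _ _ α β g w hw
    have hq : (0 : ℝ) < (Ideal.absNorm w.asIdeal : ℝ) := Pool.Agent.Y770.EP.nm_pos' w
    have hs : 0 < √(Ideal.absNorm w.asIdeal : ℝ) := Real.sqrt_pos.2 hq
    have hss : (√(Ideal.absNorm w.asIdeal : ℝ) : ℂ) * (√(Ideal.absNorm w.asIdeal : ℝ) : ℂ) =
        (Ideal.absNorm w.asIdeal : ℂ) := by
      rw [← Complex.ofReal_mul, Real.mul_self_sqrt hq.le, Complex.ofReal_natCast]
    have hqc : (Ideal.absNorm w.asIdeal : ℂ) ≠ 0 := by
      rw [← Complex.ofReal_natCast]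
      exact_mod_cast hq.ne'
    have hsc : (√(Ideal.absNorm w.asIdeal : ℝ) : ℂ) ≠ 0 := by
      exact_mod_cast hs.ne'
    have htv : ∀ i, trace (α i) (β i) w =
        (Pool.Agent.Y770.EP.tv (α i) (β i) w : ℂ) * (√(Ideal.absNorm w.asIdeal : ℝ) : ℂ) := by
      intro i
      unfold Pool.Agent.Y770.EP.tv
      rw [← Complex.ofReal_mul]
      have e1 : ((Pool.Agent.H921R2.TatePole.nm w : ℝ) - Pool.Agent.Y770.EP.pts (α i) (β i) w) /
          √(Pool.Agent.H921R2.TatePole.nm w : ℝ) * √(Ideal.absNorm w.asIdeal : ℝ) =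
          (Ideal.absNorm w.asIdeal : ℝ) - Pool.Agent.Y770.EP.pts (α i) (β i) w :=
        div_mul_cancel₀ _ hs.ne'
      rw [e1]
      push_cast
      rfl
    have e1 : trace1 α β w / (√(Ideal.absNorm w.asIdeal : ℝ) : ℂ) =
        (Pool.Agent.Y693.TP.ln α β w : ℂ) := by
      unfold trace1 Pool.Agent.Y693.TP.ln
      rw [Complex.ofReal_sum, Finset.sum_congr rfl fun i _ => htv i, ← Finset.sum_mul,
        mul_div_cancel_right₀ _ hsc]
    have e2 : trace2 α β w / (Ideal.absNorm w.asIdeal : ℂ) =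
        ((Pool.Agent.Y693.TP.qd α β w + r : ℝ) : ℂ) := by
      unfold trace2 Pool.Agent.Y693.TP.qd Pool.Agent.Y693.TP.prs
      have e3 : ∀ i : Fin r, Finset.Ioi i = Finset.univ.filter fun j => i < j := by
        intro i
        ext j
        simp
      have e4 : ∑ i, ∑ j ∈ Finset.Ioi i, trace (α i) (β i) w * trace (α j) (β j) w =
          (∑ x ∈ Finset.univ.filter (fun x : Fin r × Fin r => x.1 < x.2),
            ((Pool.Agent.Y770.EP.tv (α x.1) (β x.1) w : ℂ) *
              (Pool.Agent.Y770.EP.tv (α x.2) (β x.2) w : ℂ))) * (Ideal.absNorm w.asIdeal : ℂ) := by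
        rw [Finset.sum_filter, Fintype.sum_prod_type, Finset.sum_mul]
        refine Finset.sum_congr rfl fun i _ => ?_
        rw [e3, Finset.sum_filter, Finset.sum_mul]
        refine Finset.sum_congr rfl fun j _ => ?_
        split_ifs
        · rw [htv, htv, ← hss]
          ring
        · rw [zero_mul]
      rw [e4, ← add_mul, mul_div_cancel_right₀ _ hqc]
      push_cast
      ring
    unfold coefficient Pool.Agent.Y693.TP.cg
    have hw' : Pool.Agent.Y693.TP.GA α β w := hw
    rw [if_pos hw', e1, e2]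
  have hsum : ∀ {K : Type} [Field K] [NumberField K] (α β : Fin r → 𝓞 K)
      (g : Fin 3 → HeightOneSpectrum (𝓞 K) → Fin N → ℂ) (T : ℕ),
      tauberSum α β g T = ∑ w ∈ Pool.Agent.Y770.EP.FN K T,
        Pool.Agent.Y693.TP.cg α β (g 0) (g 1) (g 2) w *
          Real.log (Pool.Agent.H921R2.TatePole.nm w) := by
    intro K _ _ α β g T
    unfold tauberSum
    have e1 : {v : HeightOneSpectrum (𝓞 K) | IsGood α β v ∧ Ideal.absNorm v.asIdeal ≤ T} =
        ((Pool.Agent.Y770.EP.FN K T).filter fun v => IsGood α β v :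
          Finset (HeightOneSpectrum (𝓞 K))) := by
      ext v
      rw [Finset.mem_coe, Finset.mem_filter, Pool.Agent.Y770.EP.mem_FN]
      exact and_comm
    rw [e1, finsum_mem_coe_finset, Finset.sum_filter]
    refine Finset.sum_congr rfl fun w _ => ?_
    split_ifs with hw
    · rw [hcoeff α β g w hw]
      rfl
    · unfold Pool.Agent.Y693.TP.cg
      have hw' : ¬ Pool.Agent.Y693.TP.GA α β w := hw
      rw [if_neg hw', zero_mul]
  have hexp : ∀ {K : Type} [Field K] [NumberField K] (a b : Fin r → 𝓞 K)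
      (g : Fin 3 → Ideal (𝓞 K) → Fin N → ℂ) (T : ℕ),
      expectedSum (picardNumber a b) g T = ∑ v ∈ Pool.Agent.Y770.EP.FN K T,
        Pool.Agent.Y693.TP.hh (r + (Pool.Agent.Y693.TP.eqp a b).card) (fun v => g 0 v.asIdeal)
          (fun v => g 2 v.asIdeal) v * Real.log (Pool.Agent.H921R2.TatePole.nm v) := by
    intro K _ _ a b g T
    unfold expectedSum
    have e1 : {v : HeightOneSpectrum (𝓞 K) | Ideal.absNorm v.asIdeal ≤ T} =
        (Pool.Agent.Y770.EP.FN K T : Finset (HeightOneSpectrum (𝓞 K))) := by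
      ext v
      rw [Finset.mem_coe, Pool.Agent.Y770.EP.mem_FN]
      rfl
    have e2 : picardNumber a b = r + (Pool.Agent.Y693.TP.eqp a b).card := by
      unfold picardNumber
      congr 1
      rw [← Set.ncard_coe_finset]
      congr 1
      ext x
      unfold Pool.Agent.Y693.TP.eqp Pool.Agent.Y693.TP.prs
      rw [Finset.mem_coe, Finset.mem_filter, Finset.mem_filter]
      simp
    rw [e1, finsum_mem_coe_finset, e2]
    rfl
  have hfin : {t : ℤ | |t| ≤ X ∧ ¬ ∀ (L : Type) [Field L] [NumberField L] [Algebra F L] (θ : 𝓞 L),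
      Pool.Agent.Y693.RF.Gen (f + Polynomial.C (t : 𝓞 F)) θ → ∀ k,
        Pool.Agent.Y693.TP.Bd δ c X (a k) (b k) (γ k 0) (γ k 1) (γ k 2) L θ}.Finite := by
    refine Set.Finite.subset (Set.finite_Icc (-(X : ℤ)) X) fun t ht => ?_
    have := abs_le.1 ht.1
    exact ⟨this.1, this.2⟩
  refine Nat.cast_le.2 (Set.ncard_le_ncard ?_ hfin)
  rintro t ⟨ht1, ht2⟩
  refine ⟨ht1, fun hcon => ht2 ?_⟩
  intro L _ _ _ θ hθ k T hT1 hT2
  have h5 := hcon L θ ⟨hθ.1, by rw [hθ.2.1, Polynomial.natDegree_add_C], hθ.2.2⟩ k T hT1 hT2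
  rw [hsum, hexp]
  exact h5

end Pool.Agent.Results.MP_4589ac_nt.RandomNumberFields
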