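import Pool.Agent.Y722.ST.Prod
import Pool.Agent.Y722.ST.Surf

/-!
# The Tauberian Tate conjecture for almost all surfaces of linear systems and almost all products of
plane curves, times a fixed variety

For a surface `X` in `ℙ³` the trace of Frobenius on `H²` is `b_p = #X(𝔽_p) - 1 - p²` at the primes at
which `X` is smooth.  For `V = C_{σ 1} × ⋯ × C_{σ r} × W`, where the `C_i` are plane curves and `W` is any
smooth projective variety, Künneth's formula gives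
`b_p(V) = r p + b_p(W) + ∑_{i < j} a_p(C_{σ i}) a_p(C_{σ j}) + a_p(W) ∑ a_p(C_{σ i})`
with `a_p(C) = p + 1 - #C(𝔽_p)`, so `b_p(V) / p = r + b_p(W) / p + zz` for `w_p = a_p(W) / √p`.
-/

set_option autoImplicit false

namespace Pool.Agent.Results.MP_4589ac_nt.RandomSurfacesAndProducts

open Pool.Agent.Y722.HS Pool.Agent.Y722.LS Pool.Agent.Y722.TM Pool.Agent.Y722.PC
  Pool.Agent.Y722.ST

/-- Mean square over the members of height at most `H`, for all `T ≤ (H/8)^{1/4}` at the same time (`T` may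
be chosen for every member): the sums of `(b_p / p - rank) log p` over the primes `p < T` of good reduction
are `O(√T log³ T)`.  Part 1: linear systems of surfaces in `ℙ³` whose base locus has `e p + O(√p)` points
over `𝔽_p`, rank `1 + e`.  Part 2: all surfaces of degree `e + k + 1` that contain the `e` disjoint lines
`x_i = t x_{2 + i}`, `t < e`.  Part 3: products of members of linear systems of plane curves and a fixed
variety `W`; the rank of `NS` that comes on top of that of `W` is `r` plus the number of the pairs of equal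
factors, and the constant does not depend on `W`, only on a bound for `w_p = a_p(W) / √p`.  Part 4: all plane
curves of degrees at least three. -/
theorem result :
    (∀ (d : ℕ), 1 ≤ d → ∀ (ι : Type) [Fintype ι] [DecidableEq ι]
      (f : ι → MvPolynomial (Fin (3 + 1)) ℤ), (∀ i, (f i).IsHomogeneous d) → ∀ c₀ : ι → ℤ,
      IsSmooth (lform (n := 3) f (fun i => (c₀ i : ℂ))) → ∀ p₀ : ℕ,
      (∀ p : ℕ, p.Prime → p₀ ≤ p → Separates (n := 3) f p) → ∀ e C₀ : ℝ,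
      (∀ p : ℕ, p.Prime → p₀ ≤ p → |zn (n := 3) f p - e * p| ≤ C₀ * Real.sqrt p) →
      ∃ C : ℝ, ∀ w : ℕ → ℝ, (∀ p, |w p| ≤ 1) → ∀ (H : ℕ) (T : (ι → ℤ) → ℕ),
        (∀ c, 2 ≤ T c ∧ 8 * T c ^ 4 ≤ H) →
        ∑ c ∈ box ι H, dvS f e w c (T c) ^ 2 / (T c * Real.log (T c) ^ 6) ≤
          C * (box ι H).card) ∧
    (∀ e k : ℕ, ∃ C : ℝ, ∀ w : ℕ → ℝ, (∀ p, |w p| ≤ 1) → ∀ (H : ℕ)
      (T : ((Fin e → Fin (1 + 1)) × Mon (2 * 1 + 1) (k + 1) → ℤ) → ℕ),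
        (∀ c, 2 ≤ T c ∧ 8 * T c ^ 4 ≤ H) →
        ∑ c ∈ box ((Fin e → Fin (1 + 1)) × Mon (2 * 1 + 1) (k + 1)) H,
          dvS (pf 1 e (k + 1)) e w c (T c) ^ 2 / (T c * Real.log (T c) ^ 6) ≤
          C * (box ((Fin e → Fin (1 + 1)) × Mon (2 * 1 + 1) (k + 1)) H).card) ∧
    (∀ (k r : ℕ) (d : Fin k → ℕ), (∀ i, 1 ≤ d i) → ∀ (ι : Fin k → Type) [∀ i, Fintype (ι i)]
      [∀ i, DecidableEq (ι i)] (f : ∀ i, ι i → MvPolynomial (Fin 3) ℤ),
      (∀ i j, (f i j).IsHomogeneous (d i)) → ∀ c₀ : ∀ i, ι i → ℤ,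
      (∀ i, IsSmooth (lform (n := 2) (f i) (fun j => (c₀ i j : ℂ)))) → ∀ (p₀ : ℕ) (C₀ : ℝ),
      (∀ i, ∀ p : ℕ, p.Prime → p₀ ≤ p → Separates4 (n := 2) (f i) p) →
      (∀ i, ∀ p : ℕ, p.Prime → p₀ ≤ p → (bcone (n := 2) (f i) p : ℝ) ≤ C₀ * p) →
      ∀ (σ : Fin r → Fin k) (B : ℝ), ∃ C : ℝ, ∀ w : ℕ → ℝ, (∀ p, |w p| ≤ B) →
        ∀ (H : ℕ) (T : ((Σ i, ι i) → ℤ) → ℕ), (∀ c, 2 ≤ T c ∧ 8 * T c ^ 4 ≤ H) →
        ∑ c ∈ box (Σ i, ι i) H, dvC f σ w c (T c) ^ 2 / (T c * Real.log (T c) ^ 6) ≤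
          C * (box (Σ i, ι i) H).card) ∧
    ∀ (k r : ℕ) (d : Fin k → ℕ), (∀ i, 3 ≤ d i) → ∀ (σ : Fin r → Fin k) (B : ℝ),
      ∃ C : ℝ, ∀ w : ℕ → ℝ, (∀ p, |w p| ≤ B) →
        ∀ (H : ℕ) (T : ((Σ i, Mon 2 (d i)) → ℤ) → ℕ), (∀ c, 2 ≤ T c ∧ 8 * T c ^ 4 ≤ H) →
        ∑ c ∈ box (Σ i, Mon 2 (d i)) H, dvC (fun i (μ : Mon 2 (d i)) => monp μ) σ w c (T c) ^ 2 /
          (T c * Real.log (T c) ^ 6) ≤ C * (box (Σ i, Mon 2 (d i)) H).card :=
  ⟨fun _ hd _ _ _ f hf c₀ hs p₀ hsep e C₀ hZ => tauberSurf hd f hf c₀ hs p₀ hsep e C₀ hZ,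
    fun e k => tauberLines e k,
    fun _ _ _ hd _ _ _ _ hf c₀ hsm p₀ _ hs hZ σ B => tauberProd hd hf c₀ hsm p₀ hs hZ σ B,
    fun _ _ d hd σ B => tauberPlane d hd σ B⟩

end Pool.Agent.Results.MP_4589ac_nt.RandomSurfacesAndProducts
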