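import Pool.Agent.Y456.LG.Span
import Pool.Agent.Y101.Th.AddAvg
import Pool.Agent.Y691.TU.Frac

/-!
# The Tauberian Tate conjecture and sparse linear sections of `GL_m`

Let `k` be a number field and `S` a finite set which contains `0` and `1` and spans `k` over `ℚ` (for
instance `S = {0, 1}` if `k = ℚ`). A sparse linear section of `GL_m` over `k` is the scheme `U_M`
(`secGL M`) of the points `x` of the affine space `𝔸^d` such that the matrix `M(x)` is invertible, where `M`
is a square matrix each of whose entries is an element of `S` or one of the `d` variables, in which each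
variable occurs, with at most three nonzero entries in every row and in every column (`IsPat S M`,
`Thin M`). It is open in the affine space.

1. The Tauberian Tate conjecture for divisors holds for all smooth projective schemes of dimension at most
   two over `k` if and only if the averages of the traces are the ranks for the sparse linear sections of
   `GL_m`, all `m`, of dimension three.
2. For each `n`, the conjecture for the cycles of all codimensions holds for all smooth projective schemes of
   dimension at most `n` over `k` if and only if this is true for the sparse linear sections of dimension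
   `n + 1`.
3. It is true for the schemes `U_M` for all square matrices `M` of polynomials in two variables.
-/

set_option autoImplicit false

open CategoryTheory AlgebraicGeometry MvPolynomial Pool.Agent.Y116.UV Pool.Agent.Y101.Th
  Pool.Agent.Z125.UN Pool.Agent.Y456.LG

namespace Pool.Agent.Results.MP_4589ac_nt.SparseLinearSections

variable {k : Type} [Field k] [NumberField k]

/-- The Tauberian conjecture for the cycles of codimension one holds for all smooth projective schemes
of dimension at most two over `k`. -/
def Surfaces (T : TraceData k) : Prop :=
  ∀ X : Sch k, SmProj X → topologicalKrullDim X.left ≤ 2 → Tauberian T X 1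

/-- The Tauberian conjecture for the cycles of all codimensions holds for all smooth projective schemes
of dimension at most `n` over `k`. -/
def AllUpTo (T : TraceData k) (n : ℕ) : Prop :=
  ∀ X : Sch k, SmProj X → topologicalKrullDim X.left ≤ n → ∀ j, Tauberian T X j

/-- The averages of the traces of all weights are the ranks for the sparse linear sections of `GL_m`, all
`m`, in `d` variables, with constants in `S`. -/
def Sections (T : TraceData k) (S : Finset k) (d : ℕ) : Prop :=
  ∀ (m : ℕ) (M : Matrix (Fin m) (Fin m) (MvPolynomial (Fin d) k)), IsPat (S : Set k) M → Thin M →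
    ∀ j, Tauberian T (secGL M) j

/-- Known cases: the cycles of codimension other than one on surfaces, and curves. -/
structure LowKnown (T : TraceData k) : Prop where
  surface : ∀ X : Sch k, SmProj X → topologicalKrullDim X.left ≤ 2 → ∀ j ≠ 1, Tauberian T X j
  curve : ∀ X : Sch k, SmProj X → topologicalKrullDim X.left ≤ 1 → Tauberian T X 1

/-- **The Tauberian Tate conjecture and sparse linear sections of `GL_m`**, dimension by dimension. -/
theorem result (T : TraceData k) (hT : IsTraceData T)
    (hk : Pool.Agent.Y691.TU.Resolution k) (hL : LowKnown T) (S : Finset k) (h0 : 0 ∈ S) (h1 : 1 ∈ S)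
    (hspan : Submodule.span ℚ (S : Set k) = ⊤) :
    (Surfaces T ↔ Sections T S 3) ∧ (∀ n : ℕ, AllUpTo T n ↔ Sections T S (n + 1)) ∧
    ∀ (m : ℕ) (M : Matrix (Fin m) (Fin m) (MvPolynomial (Fin 2) k)) (j : _),
      Tauberian T (secGL M) j := by
  have hS : Enough (S : Set k) :=
    enough_span (Finset.mem_coe.mpr h0) (Finset.mem_coe.mpr h1) hspan
  have hB := bnd_taub hT
  have hS2 : Surfaces T ↔ AllUpTo T 2 := by
    constructor
    · intro h X hX hd j
      by_cases hj : j = 1
      · subst hj
        exact h X hX (by exact_mod_cast hd)
      · exact hL.surface X hX (by exact_mod_cast hd) j hj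
    · intro h X hX hd
      exact h X hX (by exact_mod_cast hd) 1
  have hA : ∀ n : ℕ, AllUpTo T n ↔
      ∀ X : Sch k, FT True X → topologicalKrullDim X.left ≤ n → ∀ j, Tauberian T X j := fun n =>
    ⟨fun h => Pool.Agent.Y691.TU.of_smproj hk hB n h, fun h X hX hd => h X hX.ft hd⟩
  have hC : ∀ n : ℕ, AllUpTo T n ↔ Sections T S (n + 1) := fun n => (hA n).trans (dim_iff hS hB n)
  have h2 : AllUpTo T 1 := fun X hX hd j => by
    by_cases hj : j = 1
    · subst hj
      exact hL.curve X hX (by exact_mod_cast hd)
    · refine hL.surface X hX (hd.trans ?_) j hj
      exact_mod_cast (by decide : (1 : ℕ) ≤ 2)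
  refine ⟨hS2.trans (hC 2), hC, fun m M => ?_⟩
  refine away_of_dim hB (n := 1) (fun A _ _ _ hA' => ?_) M.det
  refine (hA 1).mp h2 (aff k A) (ft_aff True) ?_
  rw [topDim_aff]
  exact hA'

end Pool.Agent.Results.MP_4589ac_nt.SparseLinearSections
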