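import Pool.Agent.Y101.Th.AddAvg
import Pool.Agent.Y691.TU.Frac

/-!
# The Tauberian Tate conjecture and trilinear forms
-/

set_option autoImplicit false

open CategoryTheory AlgebraicGeometry Pool.Agent.Y116.UV Pool.Agent.Y101.Th

namespace Pool.Agent.Results.MP_4589ac_nt.TrilinearForms

variable {k : Type} [Field k] [NumberField k]

/-- The Tauberian conjecture for the cycles of codimension one holds for all smooth projective schemes
of dimension at most two over `k`. -/
def Surfaces (T : TraceData k) : Prop :=
  ∀ X : Sch k, SmProj X → topologicalKrullDim X.left ≤ 2 → Tauberian T X 1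

/-- The Tauberian conjecture for the cycles of all codimensions holds for all smooth projective schemes
of dimension at most `n` over `k`. -/
def AllUpTo (T : TraceData k) (n : ℕ) : Prop :=
  ∀ X : Sch k, SmProj X → topologicalKrullDim X.left ≤ n → ∀ j, Tauberian T X j

/-- The averages of the traces of all weights are the ranks for the smooth affine cubic hypersurfaces
`t(x, y, z) = 1`, for all trilinear forms `t` over `k` one of whose three blocks of variables has at
most `m` variables. -/
def Cubics (T : TraceData k) (m : ℕ) : Prop :=
  ∀ (a b c : ℕ) (t : Fin a → Fin b → Fin c → k), (a ≤ m ∨ b ≤ m ∨ c ≤ m) →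
    ∀ j, Tauberian T (hypS t) j

/-- The same for the forms with coefficients `0` and `1` (given by the set `H` of the indices of the
coefficients `1`) with `m` variables `z`. -/
def ZeroOne (T : TraceData k) (m : ℕ) : Prop :=
  ∀ (a b : ℕ) (H : Finset (Fin a × Fin b × Fin m)), ∀ j, Tauberian T (tripS k H) j

/-- Known cases: the cycles of codimension other than one on surfaces, and curves. -/
structure LowKnown (T : TraceData k) : Prop where
  surface : ∀ X : Sch k, SmProj X → topologicalKrullDim X.left ≤ 2 → ∀ j ≠ 1, Tauberian T X j
  curve : ∀ X : Sch k, SmProj X → topologicalKrullDim X.left ≤ 1 → Tauberian T X 1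

/-- **The Tauberian Tate conjecture and trilinear forms.** Let `k` be a number field. The Tauberian
Tate conjecture for divisors holds for all smooth projective surfaces over `k` if and only if the
averages of the traces are the ranks for all smooth affine cubic hypersurfaces `t(x, y, z) = 1`, where
`t` is a trilinear form one of whose blocks of variables has at most four variables. The Tauberian
conjecture for the cycles of all codimensions holds for all smooth projective schemes of dimension at
most `n` if and only if this is true for the trilinear forms with a block of at most `n + 2`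
variables. Over `ℚ` it is enough to consider the forms with coefficients `0` and `1` and with a third
block of four, respectively `n + 2`, variables. It is true for the forms with a block of at most three
variables. -/
theorem result (T : TraceData k) (hT : IsTraceData T)
    (hk : Pool.Agent.Y691.TU.Resolution k) (hL : LowKnown T) :
    (Surfaces T ↔ Cubics T 4) ∧
    (∀ n : ℕ, AllUpTo T n ↔ Cubics T (n + 2)) ∧
    ((∀ x : k, ∃ d m : ℤ, IsUnit (d : k) ∧ (d : k) * x = m) →
      (Surfaces T ↔ ZeroOne T 4) ∧ ∀ n : ℕ, AllUpTo T n ↔ ZeroOne T (n + 2)) ∧
    Cubics T 3 := by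
  have hB := bnd_taub hT
  have hS : Surfaces T ↔ AllUpTo T 2 := by
    constructor
    · intro h X hX hd j
      by_cases hj : j = 1
      · subst hj
        exact h X hX (by exact_mod_cast hd)
      · exact hL.surface X hX (by exact_mod_cast hd) j hj
    · intro h X hX hd
      exact h X hX (by exact_mod_cast hd) 1
  have hA : ∀ n : ℕ, AllUpTo T n ↔
      ∀ X : Sch k, FT True X → topologicalKrullDim X.left ≤ n → ∀ j, Tauberian T X j := fun n =>
    ⟨fun h => Pool.Agent.Y691.TU.of_smproj hk hB n h, fun h X hX hd => h X hX.ft hd⟩
  have hC : ∀ n : ℕ, AllUpTo T n ↔ Cubics T (n + 2) := fun n => (hA n).trans (gen_dim hB n)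
  have hZ : (∀ x : k, ∃ d m : ℤ, IsUnit (d : k) ∧ (d : k) * x = m) →
      ∀ n : ℕ, AllUpTo T n ↔ ZeroOne T (n + 2) := fun hf n =>
    (hA n).trans (Pool.Agent.Y691.TU.gen_frac hf hB n)
  refine ⟨hS.trans (hC 2), hC, fun hf => ⟨hS.trans (hZ hf 2), hZ hf⟩, ?_⟩
  refine (hC 1).mp fun X hX hd j => ?_
  by_cases hj : j = 1
  · subst hj
    exact hL.curve X hX (by exact_mod_cast hd)
  · refine hL.surface X hX (hd.trans ?_) j hj
    exact_mod_cast (by decide : (1 : ℕ) ≤ 2)

end Pool.Agent.Results.MP_4589ac_nt.TrilinearForms
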